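import Pool.Agent.H21.ASY.Stmts

/-!
# ASY: row SCA, scaling of areas
-/

set_option autoImplicit false

namespace Pool.ASY

open Finset MeasureTheory Pool.Agent.H98.ABCR Pool.SHA
open scoped ArithmeticFunction.Moebius Pointwise

theorem sca_reg (T Z e : ℝ) (he : 0 < e) : reg (T / e ^ 3) (Z / e) = e⁻¹ • reg T Z := by
  ext x
  rw [Set.mem_smul_set_iff_inv_smul_mem₀ (inv_ne_zero he.ne'), inv_inv]
  change (0 < x.1 ∧ 0 < x.2 ∧ x.1 + x.2 ≤ Z / e ∧ x.1 * x.2 * (x.1 + x.2) ≤ T / e ^ 3) ↔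
    (0 < e * x.1 ∧ 0 < e * x.2 ∧ e * x.1 + e * x.2 ≤ Z ∧
      (e * x.1) * (e * x.2) * (e * x.1 + e * x.2) ≤ T)
  have h1 : ∀ y : ℝ, 0 < e * y ↔ 0 < y := fun y => mul_pos_iff_of_pos_left he
  have h2 : (x.1 + x.2 ≤ Z / e) ↔ (e * x.1 + e * x.2 ≤ Z) := by
    rw [le_div_iff₀ he, ← mul_add, mul_comm]
  have h3 : (x.1 * x.2 * (x.1 + x.2) ≤ T / e ^ 3) ↔
      ((e * x.1) * (e * x.2) * (e * x.1 + e * x.2) ≤ T) := by
    rw [le_div_iff₀ (pow_pos he 3)]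
    have h4 : (e * x.1) * (e * x.2) * (e * x.1 + e * x.2) = x.1 * x.2 * (x.1 + x.2) * e ^ 3 := by
      ring
    rw [h4]
  rw [h1, h1, h2, h3]

theorem sca_full (T : ℝ) (hT : 0 < T) : full T = (T ^ (1 / 3 : ℝ)) • full 1 := by
  set c : ℝ := T ^ (1 / 3 : ℝ) with hc
  have hc0 : 0 < c := Real.rpow_pos_of_pos hT _
  have hc3 : c ^ 3 = T := by
    rw [hc, ← Real.rpow_natCast, ← Real.rpow_mul hT.le]
    norm_num
  ext x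
  rw [Set.mem_smul_set_iff_inv_smul_mem₀ hc0.ne']
  change (0 < x.1 ∧ 0 < x.2 ∧ x.1 * x.2 * (x.1 + x.2) ≤ T) ↔
    (0 < c⁻¹ * x.1 ∧ 0 < c⁻¹ * x.2 ∧ (c⁻¹ * x.1) * (c⁻¹ * x.2) * (c⁻¹ * x.1 + c⁻¹ * x.2) ≤ 1)
  have h1 : ∀ y : ℝ, 0 < c⁻¹ * y ↔ 0 < y := fun y => mul_pos_iff_of_pos_left (inv_pos.mpr hc0)
  have h3 : (x.1 * x.2 * (x.1 + x.2) ≤ T) ↔
      ((c⁻¹ * x.1) * (c⁻¹ * x.2) * (c⁻¹ * x.1 + c⁻¹ * x.2) ≤ 1) := by
    have h4 : (c⁻¹ * x.1) * (c⁻¹ * x.2) * (c⁻¹ * x.1 + c⁻¹ * x.2) =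
        x.1 * x.2 * (x.1 + x.2) / c ^ 3 := by
      field_simp
    rw [h4, div_le_one (pow_pos hc0 3), hc3]
  rw [h1, h1, h3]

theorem sca_thm : S_SCA := by
  have hr : Module.finrank ℝ (ℝ × ℝ) = 2 := by
    rw [Module.finrank_prod, Module.finrank_self]
  refine ⟨?_, ?_⟩
  · intro T Z e he
    unfold Ar
    rw [sca_reg T Z e he, Measure.addHaar_smul, hr, ENNReal.toReal_mul,
      ENNReal.toReal_ofReal (abs_nonneg _), abs_of_pos (pow_pos (inv_pos.mpr he) 2), inv_pow]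
    ring
  · intro T hT
    rw [sca_full T hT, Measure.addHaar_smul, hr,
      abs_of_pos (pow_pos (Real.rpow_pos_of_pos hT _) 2)]
    have h : (T ^ (1 / 3 : ℝ)) ^ 2 = T ^ (2 / 3 : ℝ) := by
      rw [← Real.rpow_natCast, ← Real.rpow_mul hT.le]
      norm_num
    rw [h]

end Pool.ASY
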